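import Mathlib
import Pool.Agent.H905R2.RedC

/-! # MP_49c4d9_an: reductive operators linked to normal operators

Let `T` be a reductive operator on a complex Hilbert space `H`: every closed invariant subspace is
reducing.  Let `L` be the largest closed reducing subspace on which `T` is normal, and let `P` be
the orthogonal projection onto the orthogonal complement of `L`.  Then `X P Y = 0` for all bounded
operators `X`, `Y` with `X T = N' X` and `T Y = Y N`, where `N` and `N'` are normal operators on
complex Hilbert spaces.  So `L ≠ 0` as soon as `X Y ≠ 0` for some such pair, and `T` is normal if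
`X` is injective and `Y` has dense range. -/

open scoped InnerProductSpace

namespace Pool.Agent.Results.MP_49c4d9_an.NormalSummand

universe u v v'

theorem result {H : Type u} [NormedAddCommGroup H] [InnerProductSpace ℂ H] [CompleteSpace H]
    (T : H →L[ℂ] H)
    (hred : ∀ M : Submodule ℂ H, IsClosed (M : Set H) → (∀ x ∈ M, T x ∈ M) →
      ∀ x ∈ M, ContinuousLinearMap.adjoint T x ∈ M) :
    ∃ L : Submodule ℂ H, IsClosed (L : Set H) ∧
      (∀ x ∈ L, T x ∈ L ∧ ContinuousLinearMap.adjoint T x ∈ L) ∧
      (∀ x ∈ L, ContinuousLinearMap.adjoint T (T x) = T (ContinuousLinearMap.adjoint T x)) ∧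
      (∀ M : Submodule ℂ H, IsClosed (M : Set H) → (∀ x ∈ M, T x ∈ M) →
        (∀ x ∈ M, ContinuousLinearMap.adjoint T (T x) = T (ContinuousLinearMap.adjoint T x)) →
        M ≤ L) ∧
      ∀ (K : Type v) [NormedAddCommGroup K] [InnerProductSpace ℂ K] [CompleteSpace K]
        (K' : Type v') [NormedAddCommGroup K'] [InnerProductSpace ℂ K'] [CompleteSpace K']
        (N : K →L[ℂ] K) (N' : K' →L[ℂ] K'), IsStarNormal N → IsStarNormal N' →
        ∀ (X : H →L[ℂ] K') (Y : K →L[ℂ] H), X.comp T = N'.comp X → T.comp Y = Y.comp N →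
          ∀ k : K, ∀ z ∈ Lᗮ, Y k - z ∈ L → X z = 0 := by
  have hR : Pool.Agent.H905R2.Red.Red (fun _ : Unit => T) := fun M hM h _ => hred M hM (h ())
  refine ⟨Pool.Agent.H905R2.Red.nor (fun _ : Unit => T), Pool.Agent.H905R2.Red.nor_closed _,
    Pool.Agent.H905R2.Red.nor_inv _ (), fun x hx =>
      (Pool.Agent.H905R2.Red.nor_comm (fun _ : Unit => T) () () x hx).1, ?_, ?_⟩
  · intro M hM hMT hMn
    refine Pool.Agent.H905R2.Red.le_nor hM (fun _ => hMT) (fun _ => hred M hM hMT) ?_
    exact fun _ _ x hx => ⟨hMn x hx, rfl⟩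
  · intro K _ _ _ K' _ _ _ N N' hN hN' X Y hX hY k z hz hk
    exact Pool.Agent.H905R2.Red.link hR (N := fun _ => N) (M := fun _ => N') (fun _ => hN)
      (fun _ _ => Commute.refl N) (fun _ => hN') (fun _ _ => Commute.refl N')
      (fun _ x => DFunLike.congr_fun hX x) (fun _ y => DFunLike.congr_fun hY y) k z hz hk

end Pool.Agent.Results.MP_49c4d9_an.NormalSummand
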